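import Mathlib
import Pool.Agent.R980.ConnProb

/-!
# A `d`-dependent random graph which is a.s. connected although `p ≪ ln n / n`
-/

set_option autoImplicit false

namespace Pool.Agent.Results.MP_b3d828_pr.ConnectedBelowLog

open Finset Filter Topology Asymptotics
open scoped Classical
open Pool.Agent.R980 Pool.Agent.R980.Conn

/-- `w = (ln n)^(1/4)` -/
noncomputable def w (n : ℕ) : ℝ := Real.sqrt (Real.sqrt (Real.log n))

theorem w_nonneg (n : ℕ) : 0 ≤ w n := Real.sqrt_nonneg _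

theorem log_nonneg' (n : ℕ) : 0 ≤ Real.log n := Real.log_natCast_nonneg n

theorem w_pow (n : ℕ) : (w n) ^ 4 = Real.log n := by
  unfold w
  have h1 : Real.sqrt (Real.sqrt (Real.log n)) ^ 4
      = (Real.sqrt (Real.sqrt (Real.log n)) ^ 2) ^ 2 := by ring
  rw [h1, Real.sq_sqrt (Real.sqrt_nonneg _), Real.sq_sqrt (log_nonneg' n)]

/-- the edge probability `(ln n)^(3/4) / n` -/
noncomputable def p (n : ℕ) : ℝ := (w n) ^ 3 / n

theorem p_nonneg (n : ℕ) : 0 ≤ p n := by
  unfold p
  have := w_nonneg n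
  positivity

theorem p_le_one (n : ℕ) : p n ≤ 1 := by
  unfold p
  rcases Nat.eq_zero_or_pos n with h | h
  · rw [h]; simp
  · have hn : (1 : ℝ) ≤ (n : ℝ) := by exact_mod_cast h
    rw [div_le_one (by linarith)]
    have h0 := w_nonneg n
    rcases le_total (w n) 1 with h1 | h1
    · have : (w n) ^ 3 ≤ 1 := pow_le_one₀ h0 h1
      linarith
    · have h2 : (w n) ^ 3 ≤ (w n) ^ 4 := pow_le_pow_right₀ h1 (by norm_num)
      rw [w_pow] at h2
      have h3 := Real.log_le_sub_one_of_pos (show (0 : ℝ) < (n : ℝ) by linarith)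
      linarith

/-- `m = ⌊n / ln n⌋` -/
noncomputable def m (n : ℕ) : ℕ := ⌊(n : ℝ) / Real.log n⌋₊

/-- the dependence parameter -/
noncomputable def d (n : ℕ) : ℕ := 2 * m n

theorem exists_q (n : ℕ) (h : m n ≠ 0) : ∃ q : ℕ, q.Prime ∧ m n < q ∧ q ≤ 2 * m n :=
  Nat.exists_prime_lt_and_le_two_mul (m n) h

/-- the random graph -/
noncomputable def mu (n : ℕ) : GraphDist n :=
  if h : m n ≠ 0 then
    cdist n (exists_q n h).choose (exists_q n h).choose_spec.1.pos (p n) (p_nonneg n) (p_le_one n)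
  else clusterDist (n := n) (K := Edge n) id (p n) (p_nonneg n) (p_le_one n)

theorem mu_dep (n : ℕ) : IsDependent (mu n) (p n) (d n) := by
  unfold mu
  split_ifs with h
  · refine (cdist_dep n _ _ (p n) (p_nonneg n) (p_le_one n)).mono ?_
    have := (exists_q n h).choose_spec.2.2
    unfold d
    omega
  · refine (cluster_dep (n := n) (K := Edge n) id _ _ _ 0 fun k => ?_).mono (Nat.zero_le _)
    refine card_le_one.2 fun a ha b hb => ?_
    rw [mem_filter] at ha hb
    exact ha.2.trans hb.2.symm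

theorem w_tendsto : Tendsto w atTop atTop := by
  have h1 : Tendsto (fun n : ℕ => Real.log n) atTop atTop :=
    Real.tendsto_log_atTop.comp tendsto_natCast_atTop_atTop
  exact Real.tendsto_sqrt_atTop.comp (Real.tendsto_sqrt_atTop.comp h1)

/-- the failure probability -/
theorem fail_le (n : ℕ) (hw : 2 ≤ w n) (hm : 2 * Real.log n ≤ n) :
    (mu n).prob (fun G => ¬ G.Connected) ≤ Real.exp (-(w n / 64)) +
      9 * (w n) ^ 8 * Real.exp (-(w n / 64)) := by
  set W := w n with hW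
  set y := Real.log n with hy
  have hy4 : W ^ 4 = y := w_pow n
  have hy16 : 16 ≤ y := by
    rw [← hy4]
    calc (16 : ℝ) = 2 ^ 4 := by norm_num
      _ ≤ W ^ 4 := pow_le_pow_left₀ (by norm_num) hw 4
  have hn0 : (0 : ℝ) < (n : ℝ) := by linarith
  have hn1 : 1 ≤ n := by
    have : (0 : ℝ) < ((n : ℕ) : ℝ) := hn0
    exact_mod_cast this
  have hny : 2 ≤ (n : ℝ) / y := by
    rw [le_div_iff₀ (by linarith)]; exact hm
  have hm1 : ((m n : ℕ) : ℝ) ≤ (n : ℝ) / y := Nat.floor_le (by positivity)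
  have hm2 : (n : ℝ) / y < (m n : ℝ) + 1 := Nat.lt_floor_add_one _
  have hmhalf : (n : ℝ) / (2 * y) ≤ (m n : ℝ) := by
    have : (n : ℝ) / (2 * y) = (n : ℝ) / y / 2 := by field_simp
    rw [this]; linarith
  have hm2' : 2 ≤ m n := by
    have : 2 ≤ ⌊(n : ℝ) / y⌋₊ := Nat.le_floor (by exact_mod_cast hny)
    exact this
  have hmne : m n ≠ 0 := by omega
  unfold mu
  rw [dif_pos hmne]
  set q := (exists_q n hmne).choose with hq
  obtain ⟨hqp, hmq, hq2m⟩ := (exists_q n hmne).choose_spec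
  rw [← hq] at hqp hmq hq2m
  refine (not_conn_le hqp hn1 (p_nonneg n) (p_le_one n)).trans ?_
  -- real estimates
  have hq0 : (0 : ℝ) < (q : ℝ) := by exact_mod_cast hqp.pos
  have hqm : (m n : ℝ) ≤ (q : ℝ) := by exact_mod_cast hmq.le
  have hq2m' : (q : ℝ) ≤ 2 * (m n : ℝ) := by exact_mod_cast hq2m
  have hkup : ((n / q : ℕ) : ℝ) ≤ 2 * W ^ 4 := by
    refine Nat.cast_div_le.trans ?_
    rw [div_le_iff₀ hq0, hy4]
    have h1 : (n : ℝ) / (2 * y) * (2 * y) = n := by field_simp
    have h2 : (n : ℝ) / (2 * y) * (2 * y) ≤ (q : ℝ) * (2 * y) :=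
      mul_le_mul_of_nonneg_right (hmhalf.trans hqm) (by linarith)
    rw [h1] at h2
    linarith
  have hklow : W ^ 4 / 4 + 2 ≤ ((n / q : ℕ) : ℝ) := by
    have h1 : (n : ℝ) / q < ((n / q : ℕ) : ℝ) + 1 := by
      rw [div_lt_iff₀ hq0]
      have h2 := Nat.lt_div_mul_add (a := n) (b := q) hqp.pos
      have h3 : (n : ℝ) < (n / q : ℕ) * (q : ℝ) + q := by exact_mod_cast h2
      linarith
    have h2 : y / 2 ≤ (n : ℝ) / q := by
      rw [le_div_iff₀ hq0]
      have h3 : (q : ℝ) ≤ 2 * ((n : ℝ) / y) := by linarith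
      have h4 : y / 2 * q ≤ y / 2 * (2 * ((n : ℝ) / y)) :=
        mul_le_mul_of_nonneg_left h3 (by linarith)
      have h5 : y / 2 * (2 * ((n : ℝ) / y)) = n := by field_simp
      linarith
    rw [hy4]
    linarith
  have hk2 : 2 ≤ n / q := by
    have : (2 : ℝ) ≤ ((n / q : ℕ) : ℝ) := by
      have : 0 ≤ W ^ 4 := by positivity
      linarith
    exact_mod_cast this
  have hpn : p n * n = W ^ 3 := by
    unfold p
    rw [← hW]; field_simp
  have hpq1 : 1 / (2 * W) ≤ p n * q := by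
    have h1 : p n * ((n : ℝ) / (2 * y)) ≤ p n * q :=
      mul_le_mul_of_nonneg_left (hmhalf.trans hqm) (p_nonneg n)
    refine le_trans (le_of_eq ?_) h1
    have h2 : p n * ((n : ℝ) / (2 * y)) = (p n * n) / (2 * y) := by ring
    rw [h2, hpn, ← hy4]
    have : W ≠ 0 := by linarith
    field_simp
  have hpq2 : p n * q ≤ 1 := by
    have h3 : (q : ℝ) ≤ 2 * ((n : ℝ) / y) := by linarith
    have h4 : p n * q ≤ p n * (2 * ((n : ℝ) / y)) := mul_le_mul_of_nonneg_left h3 (p_nonneg n)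
    have h5 : p n * (2 * ((n : ℝ) / y)) = 2 * (p n * n) / y := by ring
    rw [h5, hpn, ← hy4] at h4
    refine h4.trans ?_
    rw [div_le_one (by positivity)]
    have : 0 ≤ W ^ 3 := by positivity
    nlinarith
  -- rho
  have hexp : (1 - p n) ^ q ≤ Real.exp (-(p n * q)) := by
    have h1 : 1 - p n ≤ Real.exp (-p n) := by
      have := Real.add_one_le_exp (-p n)
      linarith
    refine (pow_le_pow_left₀ (by linarith [p_le_one n]) h1 q).trans_eq ?_
    rw [← Real.exp_nat_mul]; congr 1; ring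
  have hrho : 1 / (4 * W) ≤ 1 - (1 - p n) ^ q := by
    set x := p n * q with hx
    have hx0 : 0 ≤ x := mul_nonneg (p_nonneg n) hq0.le
    have h2 : Real.exp (-x) ≤ 1 - x / 2 := by
      have h3 := Real.add_one_le_exp x
      rw [Real.exp_neg, inv_le_comm₀ (Real.exp_pos x) (by linarith)]
      refine le_trans ?_ h3
      rw [inv_le_iff_one_le_mul₀ (by linarith)]
      nlinarith
    have h4 : 1 / (4 * W) = 1 / (2 * W) / 2 := by
      have : W ≠ 0 := by linarith
      field_simp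
      norm_num
    rw [h4]
    linarith
  have hW0 : 0 < W := by linarith
  refine add_le_add ?_ ?_
  · -- internal clusters
    have h1 : 1 - p n ≤ Real.exp (-p n) := by
      have := Real.add_one_le_exp (-p n)
      linarith
    refine (pow_le_pow_left₀ (by linarith [p_le_one n]) h1 _).trans ?_
    rw [← Real.exp_nat_mul]
    apply Real.exp_le_exp.2
    push_cast
    have h2 : (m n : ℝ) / 4 ≤ (((q - 1) / 2 : ℕ) : ℝ) := by
      have h3 : m n ≤ 4 * ((q - 1) / 2) := by omega
      have h4 : ((m n : ℕ) : ℝ) ≤ 4 * (((q - 1) / 2 : ℕ) : ℝ) := by exact_mod_cast h3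
      linarith
    have h5 : W ^ 4 / 4 * ((n : ℝ) / (2 * y) / 4) ≤ ((n / q : ℕ) : ℝ) * (((q - 1) / 2 : ℕ) : ℝ) := by
      refine mul_le_mul (by linarith) (le_trans ?_ h2) (by positivity) (Nat.cast_nonneg _)
      exact div_le_div_of_nonneg_right hmhalf (by norm_num)
    have h6 : W ^ 4 / 4 * ((n : ℝ) / (2 * y) / 4) = (n : ℝ) / 32 := by
      rw [← hy4]; field_simp; norm_num
    rw [h6] at h5
    have h7 := mul_le_mul_of_nonneg_right h5 (p_nonneg n)
    have h8 : (n : ℝ) / 32 * p n = W ^ 3 / 32 := by rw [← hpn]; ring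
    rw [h8] at h7
    have h9 : W / 64 ≤ W ^ 3 / 32 := by
      have : W * 1 ≤ W * W ^ 2 := mul_le_mul_of_nonneg_left (by nlinarith) hW0.le
      nlinarith
    linarith
  · have h1 : ((n / q : ℕ) + 1 : ℝ) ^ 2 ≤ 9 * W ^ 8 := by
      have h2 : ((n / q : ℕ) : ℝ) + 1 ≤ 3 * W ^ 4 := by
        have hW1 : (1 : ℝ) ≤ W := le_trans (by norm_num) hw
        have : 1 ≤ W ^ 4 := one_le_pow₀ hW1
        linarith
      have h3 : (0 : ℝ) ≤ ((n / q : ℕ) : ℝ) + 1 := add_nonneg (Nat.cast_nonneg _) zero_le_one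
      have h3' : (((n / q : ℕ) : ℝ) + 1) ^ 2 ≤ (3 * W ^ 4) ^ 2 := pow_le_pow_left₀ h3 h2 2
      have h3'' : (3 * W ^ 4) ^ 2 = 9 * W ^ 8 := by ring
      rw [h3''] at h3'
      exact h3'
    have hr0 : 0 ≤ (1 - p n) ^ q := pow_nonneg (by linarith [p_le_one n]) _
    have hr1 : (1 - p n) ^ q ≤ 1 := pow_le_one₀ (by linarith [p_le_one n]) (by
      linarith [p_nonneg n])
    set ρ := 1 - (1 - p n) ^ q with hρ
    have hρ1 : ρ ≤ 1 := by linarith
    have hρ0 : 0 ≤ ρ := by linarith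
    have h4 : 1 - ρ ^ 2 ≤ Real.exp (-(ρ ^ 2)) := by
      have := Real.add_one_le_exp (-(ρ ^ 2))
      linarith
    have hb0 : 0 ≤ 1 - ρ ^ 2 := by
      have : ρ ^ 2 ≤ 1 := pow_le_one₀ hρ0 hρ1
      linarith
    have h5 : (1 - ρ ^ 2) ^ (n / q - 2) ≤ Real.exp (-(W / 64)) := by
      refine (pow_le_pow_left₀ hb0 h4 _).trans ?_
      rw [← Real.exp_nat_mul]
      apply Real.exp_le_exp.2
      rw [Nat.cast_sub hk2]
      push_cast
      have h6 : W ^ 4 / 4 ≤ ((n / q : ℕ) : ℝ) - 2 := by linarith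
      have h7 : (1 / (4 * W)) ^ 2 ≤ ρ ^ 2 := pow_le_pow_left₀ (by positivity) hrho 2
      have h8 : W ^ 4 / 4 * (1 / (4 * W)) ^ 2 ≤ (((n / q : ℕ) : ℝ) - 2) * ρ ^ 2 :=
        mul_le_mul h6 h7 (by positivity) (by linarith [show 0 ≤ W ^ 4 / 4 by positivity])
      have h9 : W ^ 4 / 4 * (1 / (4 * W)) ^ 2 = W ^ 2 / 64 := by field_simp; norm_num
      rw [h9] at h8
      have hW1 : (1 : ℝ) ≤ W := le_trans (by norm_num) hw
      have h10 : W / 64 ≤ W ^ 2 / 64 :=
        div_le_div_of_nonneg_right (le_self_pow₀ hW1 two_ne_zero) (by norm_num)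
      linarith only [h8, h10]
    exact mul_le_mul h1 h5 (pow_nonneg hb0 _) (by positivity)

/-- There are `d(n) = O(n / ln n)`, `p(n) = o(ln n / n)` and `d(n)`-dependent random graphs `G_n`
with edge probability `p(n)` such that `G_n` is connected with probability tending to `1`. -/
theorem result : ∃ (d : ℕ → ℕ) (p : ℕ → ℝ),
    ((fun n : ℕ => (d n : ℝ)) =O[atTop] fun n : ℕ => (n : ℝ) / Real.log n) ∧
    (∀ n, 0 ≤ p n ∧ p n ≤ 1) ∧
    (p =o[atTop] fun n : ℕ => Real.log n / (n : ℝ)) ∧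
    ∃ μ : (n : ℕ) → GraphDist n, (∀ n, IsDependent (μ n) (p n) (d n)) ∧
      Tendsto (fun n => (μ n).prob (fun G => G.Connected)) atTop (𝓝 1) := by
  refine ⟨d, p, ?_, fun n => ⟨p_nonneg n, p_le_one n⟩, ?_, mu, mu_dep, ?_⟩
  · refine IsBigO.of_bound 2 (Eventually.of_forall fun n => ?_)
    have h0 : 0 ≤ (n : ℝ) / Real.log n := div_nonneg (Nat.cast_nonneg _) (log_nonneg' n)
    rw [Real.norm_of_nonneg (Nat.cast_nonneg _), Real.norm_of_nonneg h0]
    unfold d m
    push_cast
    exact mul_le_mul_of_nonneg_left (Nat.floor_le h0) (by norm_num)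
  · rw [isLittleO_iff]
    intro c hc
    filter_upwards [w_tendsto.eventually_ge_atTop (1 / c), eventually_ge_atTop 1] with n hn h1
    have hn0 : (0 : ℝ) < (n : ℝ) := by exact_mod_cast h1
    rw [Real.norm_of_nonneg (p_nonneg n),
      Real.norm_of_nonneg (div_nonneg (log_nonneg' n) hn0.le)]
    unfold p
    rw [← w_pow n, ← mul_div_assoc]
    refine div_le_div_of_nonneg_right ?_ hn0.le
    have h2 : 1 ≤ c * w n := by
      rw [div_le_iff₀ hc] at hn
      linarith
    have h3 : 0 ≤ (w n) ^ 3 := by have := w_nonneg n; positivity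
    nlinarith
  · have hlogn : ∀ᶠ n : ℕ in atTop, 2 * Real.log n ≤ n := by
      have h1 := Real.isLittleO_log_id_atTop.def (show (0 : ℝ) < 1 / 2 by norm_num)
      have h2 := tendsto_natCast_atTop_atTop.eventually h1
      filter_upwards [h2] with n hn
      rw [Real.norm_of_nonneg (log_nonneg' n), id, Real.norm_of_nonneg (Nat.cast_nonneg _)] at hn
      linarith
    have hf : Tendsto (fun x : ℝ => Real.exp (-(x / 64)) + 9 * x ^ 8 * Real.exp (-(x / 64))) atTop
        (𝓝 0) := by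
      have h1 : Tendsto (fun x : ℝ => x / 64) atTop atTop :=
        tendsto_id.atTop_div_const (by norm_num)
      have h2 := (Real.tendsto_pow_mul_exp_neg_atTop_nhds_zero 8).comp h1
      have h3 := (Real.tendsto_pow_mul_exp_neg_atTop_nhds_zero 0).comp h1
      have h4 := h3.add (h2.const_mul (9 * 64 ^ 8))
      rw [mul_zero, add_zero] at h4
      refine h4.congr fun x => ?_
      simp only [Function.comp]
      rw [div_pow]
      ring
    have hb := hf.comp w_tendsto
    have hnot : Tendsto (fun n => (mu n).prob (fun G => ¬ G.Connected)) atTop (𝓝 0) := by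
      refine squeeze_zero' (Eventually.of_forall fun n => (mu n).prob_nonneg _) ?_ hb
      filter_upwards [w_tendsto.eventually_ge_atTop 2, hlogn] with n h1 h2
      exact fail_le n h1 h2
    have h1 : Tendsto (fun n => 1 - (mu n).prob (fun G => ¬ G.Connected)) atTop (𝓝 1) := by
      simpa using hnot.const_sub 1
    refine h1.congr fun n => ?_
    have := (mu n).prob_add_not (fun G => G.Connected)
    linarith

end Pool.Agent.Results.MP_b3d828_pr.ConnectedBelowLog
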